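import Pool.Agent.Helper14.GS.St

/-!
# Project GS, module A2 (one node)
-/

namespace Pool.Agent.Helper42.GS

open Pool.Agent.Helper14.GS Polynomial

/-- coefficientwise domination -/
def Dom (P Q : ℤ[X]) : Prop := ∀ l, |P.coeff l| ≤ Q.coeff l

theorem Dom.mul {P Q P' Q' : ℤ[X]} (h : Dom P Q) (h' : Dom P' Q') : Dom (P * P') (Q * Q') := by
  intro l
  rw [coeff_mul, coeff_mul]
  refine (Finset.abs_sum_le_sum_abs _ _).trans (Finset.sum_le_sum fun x _ => ?_)
  rw [abs_mul]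
  exact mul_le_mul (h _) (h' _) (abs_nonneg _) ((abs_nonneg _).trans (h _))

theorem Dom.one : Dom 1 1 := by
  intro l
  rw [coeff_one]; split_ifs <;> simp

theorem Dom.pow {P Q : ℤ[X]} (h : Dom P Q) (D : ℕ) : Dom (P ^ D) (Q ^ D) := by
  induction D with
  | zero => rw [pow_zero, pow_zero]; exact Dom.one
  | succ n ih => rw [pow_succ, pow_succ]; exact ih.mul h

theorem Dom.le_eval {P Q : ℤ[X]} (h : Dom P Q) (l : ℕ) : |P.coeff l| ≤ Q.eval 1 := by
  have h0 : ∀ i, 0 ≤ Q.coeff i := fun i => (abs_nonneg _).trans (h i)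
  refine (h l).trans ?_
  rw [eval_eq_sum_range]
  simp only [one_pow, mul_one]
  by_cases hl : l ≤ Q.natDegree
  · exact Finset.single_le_sum (f := fun i => Q.coeff i) (fun i _ => h0 i)
      (Finset.mem_range.mpr (by omega))
  · rw [coeff_eq_zero_of_natDegree_lt (by omega)]
    exact Finset.sum_nonneg fun i _ => h0 i

/-- the polynomial -/
noncomputable def Qp (D m : ℕ) : ℤ[X] := (X - C (m : ℤ)) ^ D * (C ((m : ℤ) + 1) - X) ^ D

theorem dom1 (m : ℕ) : Dom (X - C (m : ℤ)) (X + C (m : ℤ)) := by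
  intro l
  rw [coeff_sub, coeff_add, coeff_X, coeff_C]
  split_ifs with h1 h2 h2
  · omega
  · simp
  · simp
  · simp

theorem dom2 (m : ℕ) : Dom (C ((m : ℤ) + 1) - X) (X + C ((m : ℤ) + 1)) := by
  intro l
  rw [coeff_sub, coeff_add, coeff_X, coeff_C]
  split_ifs with h1 h2 h2
  · omega
  · rw [abs_of_nonneg (by omega)]; omega
  · simp
  · simp

theorem Qp_bound (D m l : ℕ) : |(Qp D m).coeff l| ≤ ((m : ℤ) + 2) ^ (2 * D) := by
  have h := (((dom1 m).pow D).mul ((dom2 m).pow D)).le_eval l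
  refine h.trans ?_
  rw [eval_mul, eval_pow, eval_pow, eval_add, eval_add, eval_X, eval_C, eval_C, two_mul, pow_add]
  have hm : (0 : ℤ) ≤ m := Int.natCast_nonneg m
  apply mul_le_mul
  · exact pow_le_pow_left₀ (by linarith) (by linarith) D
  · exact pow_le_pow_left₀ (by linarith) (by linarith) D
  · exact pow_nonneg (by linarith) D
  · exact pow_nonneg (by linarith) D

theorem dvd_coeff (r : ℤ) (D l : ℕ) (R : ℤ[X]) : r ^ (D - l) ∣ ((X - C r) ^ D * R).coeff l := by
  rw [coeff_mul]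
  apply Finset.dvd_sum
  intro x hx
  replace hx : x.1 + x.2 = l := Finset.HasAntidiagonal.mem_antidiagonal.mp hx
  apply Dvd.dvd.mul_right
  have e : (X - C r : ℤ[X]) = X + C (-r) := by rw [C_neg]; ring
  rw [e, coeff_X_add_C_pow]
  apply Dvd.dvd.mul_right
  refine (pow_dvd_pow r (show D - l ≤ D - x.1 by omega)).trans ?_
  rw [neg_pow]
  exact Dvd.intro_left _ rfl

theorem Qp_dvd1 (D m l : ℕ) : (m : ℤ) ^ (D - l) ∣ (Qp D m).coeff l := dvd_coeff _ _ _ _

theorem Qp_dvd2 (D m l : ℕ) : ((m : ℤ) + 1) ^ (D - l) ∣ (Qp D m).coeff l := by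
  have : Qp D m = (X - C ((m : ℤ) + 1)) ^ D * ((-1) ^ D * (X - C (m : ℤ)) ^ D) := by
    unfold Qp
    rw [show (C ((m : ℤ) + 1) - X : ℤ[X]) = (-1) * (X - C ((m : ℤ) + 1)) by ring, mul_pow]
    ring
  rw [this]
  exact dvd_coeff _ _ _ _

theorem Qp_natDegree (D m : ℕ) : (Qp D m).natDegree ≤ 2 * D := by
  unfold Qp
  refine natDegree_mul_le.trans ?_
  have h1 : ((X - C (m : ℤ)) ^ D).natDegree ≤ D := by
    refine natDegree_pow_le.trans ?_
    rw [natDegree_X_sub_C, mul_one]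
  have h2 : ((C ((m : ℤ) + 1) - X : ℤ[X]) ^ D).natDegree ≤ D := by
    refine natDegree_pow_le.trans ?_
    have : (C ((m : ℤ) + 1) - X : ℤ[X]).natDegree ≤ 1 := by
      refine (natDegree_sub_le _ _).trans ?_
      rw [natDegree_C, natDegree_X]
      simp
    nlinarith
  omega

/-- the elementary integrals, as powers -/
theorem J_eq (m : ℕ) (hm : 1 ≤ m) (l i : ℕ) :
    ∫ x in (0 : ℝ)..1, (x + (m : ℝ)) ^ l * ((x + (m : ℝ))⁻¹) ^ i
      = ∫ x in (m : ℝ)..((m : ℝ) + 1), x ^ ((l : ℤ) - i) := by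
  have h := intervalIntegral.integral_comp_add_right (a := 0) (b := 1)
    (fun x : ℝ => x ^ l * (x⁻¹) ^ i) (m : ℝ)
  simp only [zero_add] at h
  rw [h, add_comm (1 : ℝ)]
  apply intervalIntegral.integral_congr
  intro x hx
  rw [Set.uIcc_of_le (by linarith)] at hx
  have hm' : (1 : ℝ) ≤ m := by exact_mod_cast hm
  have hx0 : x ≠ 0 := by
    have := hx.1
    intro h0
    linarith
  simp only
  rw [zpow_sub₀ hx0, zpow_natCast, zpow_natCast, inv_pow, div_eq_mul_inv]

theorem term (D m i d l : ℕ) (hm : 1 ≤ m) (hi : 1 ≤ i) (hiD : i ≤ D + 1)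
    (hd : ∀ r : ℕ, 1 ≤ r → r ≤ 2 * D → r ∣ d) (hl : l < 2 * D + 1) :
    ∃ r : ℤ, (d : ℝ) * (((Qp D m).coeff l : ℤ) *
        ∫ x in (0 : ℝ)..1, (x + (m : ℝ)) ^ l * ((x + (m : ℝ))⁻¹) ^ i)
      = d * (((if l + 1 = i then (Qp D m).coeff l else 0 : ℤ)) : ℝ) *
        Real.log (((m : ℝ) + 1) / m) + r := by
  rw [J_eq m hm]
  have hm' : (1 : ℝ) ≤ m := by exact_mod_cast hm
  by_cases h1 : l + 1 = i
  · refine ⟨0, ?_⟩
    rw [if_pos h1]
    have : (l : ℤ) - i = -1 := by omega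
    rw [this]
    have : ∫ x in (m : ℝ)..((m : ℝ) + 1), x ^ (-1 : ℤ) = Real.log (((m : ℝ) + 1) / m) := by
      rw [← integral_inv_of_pos (by linarith) (by linarith)]
      apply intervalIntegral.integral_congr
      intro x _
      simp only
      rw [zpow_neg_one]
    rw [this]
    push_cast
    ring
  rw [if_neg h1]
  have hz : (0 : ℝ) ∉ Set.uIcc (m : ℝ) ((m : ℝ) + 1) := by
    rw [Set.uIcc_of_le (by linarith)]
    intro h
    linarith [h.1]
  rw [integral_zpow (Or.inr ⟨by omega, hz⟩)]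
  rcases lt_or_ge l i with h2 | h2
  · -- negative exponent
    obtain ⟨e, he⟩ : ∃ e : ℕ, i = l + 1 + e := ⟨i - 1 - l, by omega⟩
    have he1 : 1 ≤ e := by omega
    have heD : e ≤ D - l := by omega
    obtain ⟨c, hc⟩ := hd e he1 (by omega)
    obtain ⟨s, hs⟩ := (pow_dvd_pow (m : ℤ) heD).trans (Qp_dvd1 D m l)
    obtain ⟨t, ht⟩ := (pow_dvd_pow ((m : ℤ) + 1) heD).trans (Qp_dvd2 D m l)
    have e0 : (l : ℤ) - i + 1 = -(e : ℤ) := by omega
    refine ⟨c * (s - t), ?_⟩
    have hs' : (((Qp D m).coeff l : ℤ) : ℝ) = (m : ℝ) ^ e * s := by rw [hs]; push_cast; ring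
    have ht' : (((Qp D m).coeff l : ℤ) : ℝ) = ((m : ℝ) + 1) ^ e * t := by
      rw [ht]; push_cast; ring
    have hc' : (d : ℝ) = e * c := by rw [hc]; push_cast; ring
    have hden : (((l : ℤ) - (i : ℤ) : ℤ) : ℝ) + 1 = -(e : ℝ) := by
      have := congrArg (fun z : ℤ => (z : ℝ)) e0
      push_cast at this
      push_cast
      linarith
    rw [e0, hden, zpow_neg, zpow_neg, zpow_natCast, zpow_natCast]
    have he' : (e : ℝ) ≠ 0 := by
      have : (1 : ℝ) ≤ e := by exact_mod_cast he1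
      intro h
      linarith
    have hmne : (m : ℝ) ≠ 0 := by
      intro h
      linarith
    have hmne2 : (m : ℝ) + 1 ≠ 0 := by
      intro h
      linarith
    have k1 : (((Qp D m).coeff l : ℤ) : ℝ) * (((m : ℝ) + 1) ^ e)⁻¹ = t := by
      rw [ht']
      field_simp
    have k2 : (((Qp D m).coeff l : ℤ) : ℝ) * (((m : ℝ)) ^ e)⁻¹ = s := by
      rw [hs']
      field_simp
    have : (((Qp D m).coeff l : ℤ) : ℝ) * (((((m : ℝ) + 1) ^ e)⁻¹ - (((m : ℝ)) ^ e)⁻¹) / -(e : ℝ))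
        = (s - t) / e := by
      rw [← mul_div_assoc, mul_sub, k1, k2]
      rw [div_neg, ← neg_div]
      congr 1
      ring
    rw [this, hc']
    push_cast
    field_simp
    ring
  · -- nonnegative exponent
    obtain ⟨e, he⟩ : ∃ e : ℕ, l = i + e := ⟨l - i, by omega⟩
    obtain ⟨c, hc⟩ := hd (e + 1) (by omega) (by omega)
    have e0 : (l : ℤ) - i + 1 = ((e + 1 : ℕ) : ℤ) := by omega
    refine ⟨c * (Qp D m).coeff l * (((m : ℤ) + 1) ^ (e + 1) - (m : ℤ) ^ (e + 1)), ?_⟩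
    have hc' : (d : ℝ) = (e + 1) * c := by rw [hc]; push_cast; ring
    have hden : (((l : ℤ) - (i : ℤ) : ℤ) : ℝ) + 1 = (e : ℝ) + 1 := by
      have := congrArg (fun z : ℤ => (z : ℝ)) e0
      push_cast at this
      push_cast
      linarith
    rw [e0, hden, zpow_natCast, zpow_natCast, hc']
    have he' : (e : ℝ) + 1 ≠ 0 := by positivity
    push_cast
    field_simp
    ring

theorem A2 : StA2 := by
  intro D m i d hm hi hiD hd
  have hm' : (1 : ℝ) ≤ m := by exact_mod_cast hm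
  choose r hr using fun l : Finset.range (2 * D + 1) =>
    term D m i d l.1 hm hi hiD hd (Finset.mem_range.mp l.2)
  refine ⟨(Qp D m).coeff (i - 1), ∑ l ∈ (Finset.range (2 * D + 1)).attach, r l,
    Qp_bound D m _, ?_⟩
  have e1 : ∫ x in (0 : ℝ)..1, x ^ D * (1 - x) ^ D * ((x + (m : ℝ))⁻¹) ^ i
      = ∑ l ∈ Finset.range (2 * D + 1), (((Qp D m).coeff l : ℤ) : ℝ) *
        ∫ x in (0 : ℝ)..1, (x + (m : ℝ)) ^ l * ((x + (m : ℝ))⁻¹) ^ i := by
    have : ∀ l, (((Qp D m).coeff l : ℤ) : ℝ) *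
        ∫ x in (0 : ℝ)..1, (x + (m : ℝ)) ^ l * ((x + (m : ℝ))⁻¹) ^ i
        = ∫ x in (0 : ℝ)..1, (((Qp D m).coeff l : ℤ) : ℝ) *
          ((x + (m : ℝ)) ^ l * ((x + (m : ℝ))⁻¹) ^ i) := by
      intro l
      rw [intervalIntegral.integral_const_mul]
    simp only [this]
    rw [← intervalIntegral.integral_finsetSum]
    · apply intervalIntegral.integral_congr
      intro x _
      simp only
      have : x ^ D * (1 - x) ^ D
          = ∑ l ∈ Finset.range (2 * D + 1), (((Qp D m).coeff l : ℤ) : ℝ) * (x + (m : ℝ)) ^ l := by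
        have h := eval₂_eq_sum_range' (Int.castRingHom ℝ)
          (Nat.lt_succ_of_le (Qp_natDegree D m)) (x + (m : ℝ))
        have h2 : eval₂ (Int.castRingHom ℝ) (x + (m : ℝ)) (Qp D m) = x ^ D * (1 - x) ^ D := by
          unfold Qp
          rw [eval₂_mul, eval₂_pow, eval₂_pow, eval₂_sub, eval₂_sub, eval₂_X, eval₂_C, eval₂_C]
          simp only [eq_intCast]
          push_cast
          congr 2 <;> ring
        rw [← h2, h]
        rfl
      rw [this, Finset.sum_mul]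
      apply Finset.sum_congr rfl
      intro l _
      ring
    · intro l _
      apply ContinuousOn.intervalIntegrable
      rw [Set.uIcc_of_le (by norm_num)]
      refine ContinuousOn.mul (by fun_prop) (ContinuousOn.mul (by fun_prop) ?_)
      refine ContinuousOn.pow (ContinuousOn.inv₀ (by fun_prop) ?_) _
      intro x hx h0
      linarith [hx.1]
  rw [e1, Finset.mul_sum, ← Finset.sum_attach]
  rw [Finset.sum_congr rfl (fun l _ => hr l)]
  rw [Finset.sum_add_distrib]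
  push_cast
  congr 1
  rw [← Finset.sum_mul, ← Finset.mul_sum]
  congr 2
  rw [Finset.sum_attach (Finset.range (2 * D + 1))
    (fun l => if l + 1 = i then (((Qp D m).coeff l : ℤ) : ℝ) else 0)]
  rw [Finset.sum_eq_single (i - 1)]
  · rw [if_pos (by omega)]
  · intro b _ hb
    rw [if_neg (by omega)]
  · intro h
    exact absurd (Finset.mem_range.mpr (by omega)) h

end Pool.Agent.Helper42.GS
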