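import Pool.Agent.Helper14.GS.St

/-!
# Project GS, module A5 (bounds for the Pade integral)
-/

namespace Pool.Agent.Helper42.GS

open Pool.Agent.Helper14.GS

/-- the integrand -/
noncomputable def fI (k n D : ℕ) (x : ℝ) : ℝ :=
  x ^ D * (1 - x) ^ D * ∏ j ∈ Finset.range k, ((x + ((n + j : ℕ) : ℝ))⁻¹) ^ (D + 1)

theorem fI_cont (k n D : ℕ) (hn : 1 ≤ n) : ContinuousOn (fI k n D) (Set.Icc 0 1) := by
  unfold fI
  refine ContinuousOn.mul (by fun_prop) ?_
  refine continuousOn_finsetProd _ ?_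
  intro j _
  refine ContinuousOn.pow ?_ _
  refine ContinuousOn.inv₀ (by fun_prop) ?_
  intro x hx
  have : (0 : ℝ) < ((n + j : ℕ) : ℝ) := by
    have : 0 < n + j := by omega
    exact_mod_cast this
  have := hx.1
  positivity

theorem fI_int (k n D : ℕ) (hn : 1 ≤ n) (a b : ℝ) (ha : a ∈ Set.Icc (0 : ℝ) 1)
    (hb : b ∈ Set.Icc (0 : ℝ) 1) :
    IntervalIntegrable (fI k n D) MeasureTheory.volume a b := by
  apply ContinuousOn.intervalIntegrable
  apply (fI_cont k n D hn).mono
  intro x hx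
  rw [Set.mem_uIcc] at hx
  rcases hx with h | h
  · exact ⟨ha.1.trans h.1, h.2.trans hb.2⟩
  · exact ⟨hb.1.trans h.1, h.2.trans ha.2⟩

theorem fI_nonneg (k n D : ℕ) (x : ℝ) (h0 : 0 ≤ x) (h1 : x ≤ 1) : 0 ≤ fI k n D x := by
  unfold fI
  have h2 : 0 ≤ 1 - x := by linarith
  refine mul_nonneg (by positivity) (Finset.prod_nonneg ?_)
  intro j _
  positivity

theorem prod_upper (k n e : ℕ) (hn : 1 ≤ n) (x : ℝ) (h0 : 0 ≤ x) :
    ∏ j ∈ Finset.range k, ((x + ((n + j : ℕ) : ℝ))⁻¹) ^ e ≤ ((n : ℝ) ^ (k * e))⁻¹ := by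
  have hn' : (0 : ℝ) < n := by exact_mod_cast hn
  calc ∏ j ∈ Finset.range k, ((x + ((n + j : ℕ) : ℝ))⁻¹) ^ e
      ≤ ∏ j ∈ Finset.range k, ((n : ℝ)⁻¹) ^ e := by
        apply Finset.prod_le_prod
        · intro j _; positivity
        · intro j _
          apply pow_le_pow_left₀ (by positivity)
          apply inv_anti₀ hn'
          push_cast
          have : (0 : ℝ) ≤ j := Nat.cast_nonneg j
          linarith
    _ = ((n : ℝ) ^ (k * e))⁻¹ := by
        rw [Finset.prod_const, Finset.card_range, ← pow_mul, inv_pow, mul_comm e k]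

theorem prod_lower (k n e : ℕ) (hn : 1 ≤ n) (x : ℝ) (h0 : 0 ≤ x) (h1 : x ≤ 1) :
    (((n : ℝ) + k) ^ (k * e))⁻¹ ≤ ∏ j ∈ Finset.range k, ((x + ((n + j : ℕ) : ℝ))⁻¹) ^ e := by
  have hn' : (0 : ℝ) < n := by exact_mod_cast hn
  calc (((n : ℝ) + k) ^ (k * e))⁻¹ = ∏ j ∈ Finset.range k, (((n : ℝ) + k)⁻¹) ^ e := by
        rw [Finset.prod_const, Finset.card_range, ← pow_mul, inv_pow, mul_comm e k]
    _ ≤ _ := by
        apply Finset.prod_le_prod
        · intro j _; positivity
        · intro j hj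
          apply pow_le_pow_left₀ (by positivity)
          apply inv_anti₀
          · push_cast
            have : (0 : ℝ) ≤ j := Nat.cast_nonneg j
            linarith
          · push_cast
            have : (j : ℝ) + 1 ≤ k := by exact_mod_cast Finset.mem_range.mp hj
            linarith

theorem A5 : StA5 := by
  intro k n D hk hn
  have hn' : (0 : ℝ) < n := by exact_mod_cast hn
  have hpade : ∀ E, padeI k n E = ∫ x in (0 : ℝ)..1, fI k n E x := fun E => rfl
  have hlow : ((8 : ℝ) ^ (D + 1) * ((n : ℝ) + k) ^ (k * (D + 1)))⁻¹ ≤ padeI k n D := by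
    have s1 : ∫ x in (1 / 4 : ℝ)..(3 / 4), fI k n D x ≤ ∫ x in (0 : ℝ)..1, fI k n D x := by
      apply intervalIntegral.integral_mono_interval (by norm_num) (by norm_num) (by norm_num)
      · rw [Filter.EventuallyLE, MeasureTheory.ae_restrict_iff' measurableSet_Ioc]
        filter_upwards with x hx
        exact fI_nonneg k n D x hx.1.le hx.2
      · exact fI_int k n D hn 0 1 ⟨le_refl _, by norm_num⟩ ⟨by norm_num, le_refl _⟩
    have s2 : ∫ _ in (1 / 4 : ℝ)..(3 / 4), ((1 / 8 : ℝ) ^ D * (((n : ℝ) + k) ^ (k * (D + 1)))⁻¹)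
        ≤ ∫ x in (1 / 4 : ℝ)..(3 / 4), fI k n D x := by
      apply intervalIntegral.integral_mono_on (by norm_num) (by simp)
        (fI_int k n D hn _ _ ⟨by norm_num, by norm_num⟩ ⟨by norm_num, by norm_num⟩)
      intro x hx
      unfold fI
      apply mul_le_mul
      · rw [← mul_pow]
        apply pow_le_pow_left₀ (by norm_num)
        nlinarith [hx.1, hx.2]
      · exact prod_lower k n (D + 1) hn x (by linarith [hx.1]) (by linarith [hx.2])
      · positivity
      · have a1 : 0 ≤ x := by linarith [hx.1]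
        have a2 : 0 ≤ 1 - x := by linarith [hx.2]
        positivity
    rw [hpade]
    refine le_trans ?_ (s2.trans s1)
    rw [intervalIntegral.integral_const, smul_eq_mul, mul_inv, ← mul_assoc]
    apply mul_le_mul_of_nonneg_right _ (by positivity)
    have e8 : ((8 : ℝ) ^ (D + 1))⁻¹ = (1 / 8) * (1 / 8 : ℝ) ^ D := by
      rw [pow_succ, mul_inv, one_div_pow, one_div, one_div]
      ring
    rw [e8]
    apply mul_le_mul_of_nonneg_right (by norm_num) (by positivity)
  have hpos : 0 < padeI k n D := lt_of_lt_of_le (by positivity) hlow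
  refine ⟨hpos, ?_, hlow, ?_⟩
  · rw [hpade]
    have : ∫ x in (0 : ℝ)..1, fI k n D x ≤ ∫ _ in (0 : ℝ)..1, ((n : ℝ) ^ (k * (D + 1)))⁻¹ := by
      apply intervalIntegral.integral_mono_on (by norm_num)
        (fI_int k n D hn 0 1 ⟨le_refl _, by norm_num⟩ ⟨by norm_num, le_refl _⟩) (by simp)
      intro x hx
      unfold fI
      have a2 : 0 ≤ 1 - x := by linarith [hx.2]
      have a1 := hx.1
      have b1 : x ^ D * (1 - x) ^ D ≤ 1 := by
        rw [← mul_pow]
        apply pow_le_one₀ (by positivity)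
        nlinarith [hx.1, hx.2]
      calc x ^ D * (1 - x) ^ D * ∏ j ∈ Finset.range k, ((x + ((n + j : ℕ) : ℝ))⁻¹) ^ (D + 1)
          ≤ 1 * ∏ j ∈ Finset.range k, ((x + ((n + j : ℕ) : ℝ))⁻¹) ^ (D + 1) := by
            apply mul_le_mul_of_nonneg_right b1
            apply Finset.prod_nonneg
            intro j _
            positivity
        _ ≤ _ := by
            rw [one_mul]
            exact prod_upper k n (D + 1) hn x hx.1
    refine this.trans ?_
    rw [intervalIntegral.integral_const]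
    simp
  · intro D' hD
    rw [hpade, hpade, ← intervalIntegral.integral_const_mul]
    apply intervalIntegral.integral_mono_on (by norm_num)
      (fI_int k n D' hn 0 1 ⟨le_refl _, by norm_num⟩ ⟨by norm_num, le_refl _⟩)
      ((fI_int k n D hn 0 1 ⟨le_refl _, by norm_num⟩ ⟨by norm_num, le_refl _⟩).const_mul _)
    intro x hx
    obtain ⟨t, rfl⟩ : ∃ t, D' = D + t := ⟨D' - D, by omega⟩
    have a2 : 0 ≤ 1 - x := by linarith [hx.2]
    have a1 := hx.1
    have e1 : fI k n (D + t) x = (x * (1 - x)) ^ t *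
        (∏ j ∈ Finset.range k, ((x + ((n + j : ℕ) : ℝ))⁻¹) ^ t) * fI k n D x := by
      unfold fI
      have : ∏ j ∈ Finset.range k, ((x + ((n + j : ℕ) : ℝ))⁻¹) ^ (D + t + 1)
          = (∏ j ∈ Finset.range k, ((x + ((n + j : ℕ) : ℝ))⁻¹) ^ t) *
            ∏ j ∈ Finset.range k, ((x + ((n + j : ℕ) : ℝ))⁻¹) ^ (D + 1) := by
        rw [← Finset.prod_mul_distrib]
        apply Finset.prod_congr rfl
        intro j _
        rw [← pow_add]
        congr 1
        omega
      rw [this, mul_pow, pow_add, pow_add]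
      ring
    rw [e1]
    apply mul_le_mul_of_nonneg_right _ (fI_nonneg k n D x hx.1 hx.2)
    have b1 : (x * (1 - x)) ^ t ≤ 1 := by
      apply pow_le_one₀ (by positivity)
      nlinarith [hx.1, hx.2]
    have b2 : 0 ≤ ∏ j ∈ Finset.range k, ((x + ((n + j : ℕ) : ℝ))⁻¹) ^ t := by
      apply Finset.prod_nonneg
      intro j _
      positivity
    calc (x * (1 - x)) ^ t * (∏ j ∈ Finset.range k, ((x + ((n + j : ℕ) : ℝ))⁻¹) ^ t)
        ≤ 1 * ∏ j ∈ Finset.range k, ((x + ((n + j : ℕ) : ℝ))⁻¹) ^ t :=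
          mul_le_mul_of_nonneg_right b1 b2
      _ ≤ _ := by
          rw [one_mul, show D + t - D = t by omega]
          exact prod_upper k n t hn x hx.1

end Pool.Agent.Helper42.GS
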