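import Pool.Agent.Helper14.GS.St

/-!
# Project GS, module A6 (arithmetic core)
-/

namespace Pool.Agent.Helper42.GS

open Pool.Agent.Helper14.GS

theorem A6aux (k : ℕ) (l : ℕ → ℝ) (h : ℕ → ℤ) (θ ε W I : ℝ) (p : ℤ) (u : ℕ → ℤ)
    (he : 0 ≤ ε)
    (hI : I = p + ∑ j ∈ Finset.range k, (u j : ℝ) * l j)
    (hl : ∀ j < k, |θ * l j - h j| ≤ 2 * ε)
    (hu : (∑ j ∈ Finset.range k, |(u j : ℝ)|) ≤ W) :
    ∃ Z : ℤ, |θ * I - θ * p - Z| ≤ 2 * ε * W := by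
  refine ⟨∑ j ∈ Finset.range k, u j * h j, ?_⟩
  have e1 : θ * I - θ * p - ((∑ j ∈ Finset.range k, u j * h j : ℤ) : ℝ)
      = ∑ j ∈ Finset.range k, (u j : ℝ) * (θ * l j - h j) := by
    rw [hI]
    push_cast
    rw [show θ * ((p : ℝ) + ∑ j ∈ Finset.range k, (u j : ℝ) * l j) - θ * p
      = ∑ j ∈ Finset.range k, θ * ((u j : ℝ) * l j) by rw [← Finset.mul_sum]; ring]
    rw [← Finset.sum_sub_distrib]
    apply Finset.sum_congr rfl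
    intro j _
    ring
  rw [e1]
  calc |∑ j ∈ Finset.range k, (u j : ℝ) * (θ * l j - h j)|
      ≤ ∑ j ∈ Finset.range k, |(u j : ℝ) * (θ * l j - h j)| := Finset.abs_sum_le_sum_abs _ _
    _ ≤ ∑ j ∈ Finset.range k, |(u j : ℝ)| * (2 * ε) := by
        apply Finset.sum_le_sum
        intro j hj
        rw [abs_mul]
        exact mul_le_mul_of_nonneg_left (hl j (Finset.mem_range.mp hj)) (abs_nonneg _)
    _ = (∑ j ∈ Finset.range k, |(u j : ℝ)|) * (2 * ε) := by rw [Finset.sum_mul]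
    _ ≤ W * (2 * ε) := by
        apply mul_le_mul_of_nonneg_right hu; linarith
    _ = 2 * ε * W := by ring

/-- An integer of absolute value less than one vanishes. -/
theorem int_zero_of_abs_lt (z : ℤ) (h : |(z : ℝ)| < 1) : z = 0 := by
  have : |z| < 1 := by
    have : ((|z| : ℤ) : ℝ) < 1 := by push_cast; exact h
    exact_mod_cast this
  exact Int.abs_lt_one_iff.mp this

theorem A6 : StA6 := by
  intro k l h θ ε W I₁ I₂ p₁ p₂ u₁ u₂ hθ he hW hI1 hI2 hle e1 e2 hl s1 s2 hp1 hp2 h1 h2 h3 h4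
  obtain ⟨Z1, hZ1⟩ := A6aux k l h θ ε W I₁ p₁ u₁ he e1 hl s1
  obtain ⟨Z2, hZ2⟩ := A6aux k l h θ ε W I₂ p₂ u₂ he e2 hl s2
  have hθ1 : 0 < θ * I₁ := mul_pos hθ hI1
  have hθ2 : 0 < θ * I₂ := mul_pos hθ hI2
  have hθ12 : θ * I₂ ≤ θ * I₁ := mul_le_mul_of_nonneg_left hle hθ.le
  have hs1 : θ * I₁ < 1 / 8 := by
    have : 1 * (θ * I₁) ≤ W * (θ * I₁) := mul_le_mul_of_nonneg_right hW hθ1.le
    nlinarith
  have hWW : W ≤ W ^ 2 := by nlinarith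
  have hε1 : 16 * (ε * W) < 1 := by
    have : ε * W ≤ ε * W ^ 2 := mul_le_mul_of_nonneg_left hWW he
    nlinarith
  have hε0 : 0 ≤ ε * W := mul_nonneg he (by linarith)
  have key0 : ∀ (p : ℤ) (I : ℝ) (Z : ℤ), 0 < θ * I → θ * I < 1 / 8 → 4 * (ε * W) ≤ θ * I →
      |θ * I - θ * p - Z| ≤ 2 * ε * W → p ≠ 0 := by
    intro p I Z a b c d hp
    rw [hp] at d
    push_cast at d
    rw [mul_zero, sub_zero] at d
    have d' := abs_le.mp d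
    have : Z = 0 := by
      apply int_zero_of_abs_lt
      rw [abs_lt]
      constructor <;> nlinarith
    rw [this] at d'
    push_cast at d'
    nlinarith
  have n2 : p₂ ≠ 0 := key0 p₂ I₂ Z2 hθ2 (by linarith) (by linarith) hZ2
  -- the integer p₂ Z₁ - p₁ Z₂ vanishes
  set a1 : ℝ := θ * I₁ - θ * p₁ - Z1 with ha1
  set a2 : ℝ := θ * I₂ - θ * p₂ - Z2 with ha2
  have b1 := abs_le.mp hZ1
  have b2 := abs_le.mp hZ2
  have id1 : ((p₂ * Z1 - p₁ * Z2 : ℤ) : ℝ) = p₂ * (θ * I₁ - a1) - p₁ * (θ * I₂ - a2) := by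
    rw [ha1, ha2]; push_cast; ring
  have c1 : |(p₂ : ℝ) * (θ * I₁ - a1)| ≤ W * (θ * I₁ + 2 * ε * W) := by
    rw [abs_mul]
    apply mul_le_mul hp2 _ (abs_nonneg _) (by linarith)
    rw [abs_le]; constructor <;> linarith
  have c2 : |(p₁ : ℝ) * (θ * I₂ - a2)| ≤ W * (θ * I₂ + 2 * ε * W) := by
    rw [abs_mul]
    apply mul_le_mul hp1 _ (abs_nonneg _) (by linarith)
    rw [abs_le]; constructor <;> linarith
  have hWθ : W * (θ * I₂) ≤ W * (θ * I₁) := mul_le_mul_of_nonneg_left hθ12 (by linarith)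
  have z0 : p₂ * Z1 - p₁ * Z2 = 0 := by
    apply int_zero_of_abs_lt
    rw [id1]
    have t := abs_sub ((p₂ : ℝ) * (θ * I₁ - a1)) ((p₁ : ℝ) * (θ * I₂ - a2))
    have : W * (θ * I₁ + 2 * ε * W) + W * (θ * I₂ + 2 * ε * W)
        = W * (θ * I₁) + W * (θ * I₂) + 4 * (ε * W ^ 2) := by ring
    nlinarith
  have z1 : (p₂ : ℝ) * (θ * I₁ - a1) = p₁ * (θ * I₂ - a2) := by
    have : ((p₂ * Z1 - p₁ * Z2 : ℤ) : ℝ) = 0 := by rw [z0]; simp
    rw [id1] at this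
    linarith
  have n2' : (1 : ℝ) ≤ |(p₂ : ℝ)| := by
    have : (1 : ℤ) ≤ |p₂| := Int.one_le_abs n2
    have : ((1 : ℤ) : ℝ) ≤ ((|p₂| : ℤ) : ℝ) := by exact_mod_cast this
    push_cast at this
    exact this
  have f1 : |(p₂ : ℝ) * (θ * I₁ - a1)| = |(p₂ : ℝ)| * |θ * I₁ - a1| := abs_mul _ _
  have f2 : |(p₁ : ℝ) * (θ * I₂ - a2)| = |(p₁ : ℝ)| * |θ * I₂ - a2| := abs_mul _ _
  have g1 : θ * I₁ / 2 ≤ |θ * I₁ - a1| := by
    refine le_trans ?_ (le_abs_self _)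
    linarith
  have g2 : |θ * I₂ - a2| ≤ 3 / 2 * (θ * I₂) := by
    rw [abs_le]; constructor <;> linarith
  have k1 : θ * I₁ / 2 ≤ |(p₂ : ℝ)| * |θ * I₁ - a1| := by
    calc θ * I₁ / 2 ≤ 1 * |θ * I₁ - a1| := by linarith
      _ ≤ |(p₂ : ℝ)| * |θ * I₁ - a1| := mul_le_mul_of_nonneg_right n2' (abs_nonneg _)
  have k2 : |(p₁ : ℝ)| * |θ * I₂ - a2| ≤ W * (3 / 2 * (θ * I₂)) :=
    mul_le_mul hp1 g2 (abs_nonneg _) (by linarith)
  have k3 : θ * I₁ / 2 ≤ W * (3 / 2 * (θ * I₂)) := by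
    calc θ * I₁ / 2 ≤ |(p₂ : ℝ)| * |θ * I₁ - a1| := k1
      _ = |(p₁ : ℝ)| * |θ * I₂ - a2| := by rw [← f1, z1, f2]
      _ ≤ _ := k2
  have k4 : θ * (3 * W * I₂) < θ * I₁ := mul_lt_mul_of_pos_left h4 hθ
  nlinarith

end Pool.Agent.Helper42.GS
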