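import Pool.Agent.Helper14.GS.St

/-!
# Project GS, module C3
-/

namespace Pool.Agent.Helper42.GS

open Pool.Agent.Helper14.GS

theorem C3aux (r : ℕ) : ∀ S : Finset ℕ, (∀ a ∈ S, 5 ≤ a) →
    (∀ a ∈ S, ∀ a' ∈ S, a < a' → a ^ 2 ≤ a') → S.card = r + 1 → ∃ a ∈ S, 5 ^ (2 ^ r) ≤ a := by
  induction r with
  | zero =>
    intro S h1 _ hc
    have hne : S.Nonempty := by
      rw [← Finset.card_pos, hc]; omega
    obtain ⟨a, ha⟩ := hne
    exact ⟨a, ha, by simpa using h1 a ha⟩
  | succ r ih =>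
    intro S h1 h2 hc
    have hne : S.Nonempty := by
      rw [← Finset.card_pos, hc]; omega
    obtain ⟨a, ha, hle⟩ := ih (S.erase (S.max' hne)) (fun a ha => h1 a (Finset.mem_of_mem_erase ha))
      (fun a ha a' ha' => h2 a (Finset.mem_of_mem_erase ha) a' (Finset.mem_of_mem_erase ha'))
      (by rw [Finset.card_erase_of_mem (Finset.max'_mem S hne), hc]; omega)
    have hlt : a < S.max' hne :=
      lt_of_le_of_ne (Finset.le_max' S a (Finset.mem_of_mem_erase ha)) (Finset.ne_of_mem_erase ha)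
    refine ⟨S.max' hne, Finset.max'_mem S hne, ?_⟩
    calc 5 ^ (2 ^ (r + 1)) = (5 ^ (2 ^ r)) ^ 2 := by rw [← pow_mul, pow_succ]
      _ ≤ a ^ 2 := Nat.pow_le_pow_left hle 2
      _ ≤ _ := h2 a (Finset.mem_of_mem_erase ha) _ (Finset.max'_mem S hne) hlt

theorem C3 : StC3 := by
  intro S Y h1 h2 h3 hY
  have hlog5 : 1 ≤ Real.log 5 := by
    rw [Real.le_log_iff_exp_le (by norm_num)]
    have := Real.exp_one_lt_d9
    linarith
  have hlogY : 1 ≤ Real.log Y := hlog5.trans (Real.log_le_log (by norm_num) hY)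
  have hll : 0 ≤ Real.log (Real.log Y) := Real.log_nonneg hlogY
  rcases Nat.eq_zero_or_pos S.card with hc | hc
  · rw [hc]; push_cast; linarith
  obtain ⟨r, hr⟩ : ∃ r, S.card = r + 1 := ⟨S.card - 1, by omega⟩
  obtain ⟨a, ha, hle⟩ := C3aux r S h1 h3 hr
  have e1 : (5 : ℝ) ^ (2 ^ r) ≤ Y := by
    have : ((5 ^ (2 ^ r) : ℕ) : ℝ) ≤ (a : ℝ) := by exact_mod_cast hle
    push_cast at this
    exact this.trans (h2 a ha)
  have e2 : ((2 : ℝ) ^ r) * Real.log 5 ≤ Real.log Y := by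
    have := Real.log_le_log (by positivity) e1
    rw [Real.log_pow] at this
    push_cast at this
    exact this
  have e3 : (2 : ℝ) ^ r ≤ Real.log Y := by
    have h0 : (0 : ℝ) ≤ 2 ^ r := by positivity
    nlinarith
  have e4 : (r : ℝ) * Real.log 2 ≤ Real.log (Real.log Y) := by
    have := Real.log_le_log (by positivity) e3
    rw [Real.log_pow] at this
    exact this
  have hlog2 := Real.log_two_gt_d9
  have e5 : (r : ℝ) ≤ 2 * Real.log (Real.log Y) := by
    have h0 : (0 : ℝ) ≤ r := Nat.cast_nonneg r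
    nlinarith
  rw [hr]; push_cast; linarith

end Pool.Agent.Helper42.GS
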