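import Pool.Agent.Helper79.GS.St5

set_option autoImplicit false

namespace Pool.Agent.Helper42.GS

open Pool.Agent.Helper79.GS Pool.Agent.Helper19.SK Pool.Agent.Helper73.DC Finset

private theorem ei {p : List (Fin 5) → (ℕ → ℕ) → Prop} {inst : ∀ w v, Decidable (p w v)} {F G : VF (Fin 5)}
    (hp : E2P p) (hF : E2 F) (hG : E2 G) : E2 (fun w v => @ite ℕ (p w v) (inst w v) (F w v) (G w v)) := by
  have h := e_ite hp hF hG
  have e : (fun w v => @ite ℕ (p w v) (inst w v) (F w v) (G w v)) =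
      fun w v => @ite ℕ (p w v) (Classical.propDecidable _) (F w v) (G w v) := by
    funext w v
    congr
  rw [e]
  exact h

theorem hEP1 (hEW : StEW) (hEB2 : StEB2) (hEA : StEA) (hEF : StEF) : StEP1 := by
  intro N Z A hN hZ hA
  obtain ⟨-, hnW, -, -, hplW, hRW, -, hb0, hH0, hVN⟩ := hEW
  obtain ⟨-, -, hmv, hare⟩ := hEB2
  obtain ⟨hLL, hN4, hzz, hfi, hc, hent, hb01⟩ := hEF
  have hf : ∀ i : ℕ, E2 (fun w v => fi (N w v) w (Z w v) i) := fun i =>
    hfi N Z (fun _ _ => i) hN hZ (e_con i)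
  have hT : ∀ i : ℕ, E2P (fun w v => fi (N w v) w (Z w v) 0 = i) := fun i => e_eq (hf 0) (e_con i)
  have har : ∀ i k : ℕ, E2 (fun w v => areaN (N w v) (nW w) i (fi (N w v) w (Z w v) k)) := fun i k =>
    (hare N (fun w _ => nW w) (fun _ _ => i) (fun w v => fi (N w v) w (Z w v) k) hN hnW (e_con i) (hf k)).1
  refine ⟨?_, ?_, ?_, ?_⟩
  · unfold IniN ini6
    refine ei (hT 6) (hb01 _ ?_) (e_con 0)
    refine e_and (e_imp (e_eq (hf 8) (e_con 1)) (e_ne (hf 10) (hf 5))) ?_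
    refine e_and (e_eq (e_add (har 1 10) (har 0 5)) (e_add (har 1 5) (har 0 10))) ?_
    refine e_and (hmv N (fun w _ => nW w) (fun w v => fi (N w v) w (Z w v) 2)
      (fun w v => fi (N w v) w (Z w v) 10) (fun w v => fi (N w v) w (Z w v) 11) hN hnW (hf 2) (hf 10) (hf 11)).2 ?_
    refine e_and (e_not (hVN (fun w v => fi (N w v) w (Z w v) 3) (fun w v => fi (N w v) w (Z w v) 4)
      (fun w v => fi (N w v) w (Z w v) 11) (hf 3) (hf 4) (hf 11))) ?_
    exact e_or (e_eq (hf 10) (hf 5)) (e_not (hVN (fun w v => fi (N w v) w (Z w v) 3)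
      (fun w v => fi (N w v) w (Z w v) 4) (fun w v => fi (N w v) w (Z w v) 10) (hf 3) (hf 4) (hf 10)))
  · unfold LenN
    have hNb := (hN4 N hN).2.1
    have hSd := (hN4 N hN).2.2.2
    have hXb := (hEA.2.2.1 N (fun w _ => LL (nW w)) (fun _ _ => 0) hN hLL (e_con 0)).2.1
    have hah := (hare N (fun w _ => nW w) (fun w v => fi (N w v) w (Z w v) 2)
      (fun w v => fi (N w v) w (Z w v) 5) hN hnW (hf 2) (hf 5)).2.1
    refine ei (hT 1) (ei hah (e_add hNb (e_con 2)) (e_con 1)) ?_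
    refine ei (hT 2) (ei (e_eq (hf 1) (e_con 0)) (e_con 0) hNb) ?_
    refine ei (hT 3) (ei (e_eq (hf 6) (e_con 0)) (e_con 0)
      (e_add (e_mul (e_con 2) (e_add hNb (e_con 1))) (e_con 1))) ?_
    refine ei (hT 4) hXb ?_
    refine ei (hT 5) (ei (e_eq (hf 9) (e_con 0)) (e_con 1) (e_mul (e_con 2) hSd)) ?_
    exact ei (hT 6) (e_con 3) (ei (hT 7) (e_con 1) (e_con 0))
  · unfold OutN
    have h1 : E2 (fun w v => b01 (A w v = 1)) := hb01 _ (e_eq hA (e_con 1))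
    exact ei (hT 3) h1 (ei (hT 5) (e_mod hA (hN4 N hN).1) h1)
  · unfold Z0N
    exact hzz N (fun _ _ => 7) (fun w _ => RW w) (fun w _ => plW w) (fun _ _ => 0) (fun _ _ => 0)
      (fun w v => b0W (N w v) w) (fun _ _ => 0) (fun _ _ => 0) (fun _ _ => 0) (fun _ _ => 0) (fun _ _ => 0)
      (fun _ _ => 0) (fun _ _ => 0) hN (e_con 7) hRW hplW (e_con 0) (e_con 0) (hb0 N hN) (e_con 0) (e_con 0)
      (e_con 0) (e_con 0) (e_con 0) (e_con 0) (e_con 0)

end Pool.Agent.Helper42.GS
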