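import Pool.Agent.Helper79.GS.St3

set_option autoImplicit false

namespace Pool.Agent.Helper42.GS

open Pool.Agent.Helper79.GS

private lemma two_mul_le_pow : ∀ K : ℕ, 1 ≤ K → 2 * K ≤ 2 ^ K := by
  intro K hK
  induction K, hK using Nat.le_induction with
  | base => norm_num
  | succ n hn ih =>
    have : 2 ≤ 2 ^ n := by
      calc 2 = 2 ^ 1 := by norm_num
        _ ≤ 2 ^ n := Nat.pow_le_pow_right (by norm_num) hn
    rw [pow_succ]; omega

theorem hMDL : StMDL := by
  intro K P hK hP hPK
  by_contra hcon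
  push Not at hcon
  have hC0 : Nat.centralBinom K ≠ 0 := (Nat.centralBinom_pos K).ne'
  have hdvd : Nat.centralBinom K ∣ P := by
    rw [← Nat.factorization_prime_le_iff_dvd hC0 hP.ne']
    intro p hp
    rw [← hp.pow_dvd_iff_le_factorization hP.ne']
    apply hcon
    · exact Nat.pos_of_ne_zero (pow_ne_zero _ hp.ne_zero)
    · have h : p ^ ((Nat.choose (2 * K) K).factorization p) ≤ 2 * K :=
        Nat.pow_factorization_choose_le (by omega)
      rw [Nat.centralBinom_eq_two_mul_choose]
      exact h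
  have h1 : Nat.centralBinom K ≤ P := Nat.le_of_dvd hP hdvd
  have h2 : 4 ^ K ≤ 2 * K * Nat.centralBinom K :=
    Nat.four_pow_le_two_mul_self_mul_centralBinom K (by omega)
  have h3 := two_mul_le_pow K hK
  have h4 : (4 : ℕ) ^ K = 2 ^ K * 2 ^ K := by rw [← mul_pow]; norm_num
  have h5 : 2 ^ K * 2 ^ K ≤ 2 ^ K * Nat.centralBinom K := by
    rw [← h4]; exact h2.trans (Nat.mul_le_mul_right _ h3)
  have h6 : 2 ^ K ≤ Nat.centralBinom K := Nat.le_of_mul_le_mul_left h5 (by positivity)
  omega

end Pool.Agent.Helper42.GS
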